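import Pool.Agent.C4N.Stm
import Pool.Agent.Helper13_Conc.Tools

/-!
# Squad C4N, module TRK: moments of the number of sampled paths
-/

set_option autoImplicit false

open scoped BigOperators Classical

noncomputable section

namespace Pool.Agent.C4N.H5

open Finset
open Pool.Agent.C4N
open Pool.Agent.Helper13_Conc (mean Dep mean_mul_dep mean_prod_dep mean_coord mean_nonneg mean_sum
  mean_mono mean_const mean_mul_left)

variable {V : Type} [Fintype V]

/-- first part of a sequence -/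
def hd (r b : ℕ) (z : Fin (r + b + 1) → V) : Fin (r + 1) → V := fun i => z ⟨i.1, by omega⟩

/-- last part of a sequence -/
def tl (r b : ℕ) (z : Fin (r + b + 1) → V) : Fin (b + 1) → V := fun i => z ⟨r + i.1, by omega⟩

/-- product of the weights -/
def pr (w : V → V → ℝ) (a : ℕ) (z : Fin (a + 1) → V) : ℝ :=
  ∏ i : Fin a, w (z i.castSucc) (z i.succ)

theorem npw_eq (w : V → V → ℝ) (a : ℕ) (x y : V) : npw w a x y = ∑ z ∈ Sq V a x y, pr w a z :=
  rfl

theorem pr_nonneg {w : V → V → ℝ} (hw : ∀ x y, 0 ≤ w x y) (a : ℕ) (z : Fin (a + 1) → V) :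
    0 ≤ pr w a z := Finset.prod_nonneg fun _ _ => hw _ _

theorem pr_split (w : V → V → ℝ) (r b : ℕ) (z : Fin (r + b + 1) → V) :
    pr w (r + b) z = pr w r (hd r b z) * pr w b (tl r b z) := by
  rw [pr, Fin.prod_univ_add]
  rfl

theorem mem_Sq {a : ℕ} {x y : V} {z : Fin (a + 1) → V} : z ∈ Sq V a x y ↔
    z 0 = x ∧ z (Fin.last a) = y ∧
    (∀ i j : Fin (a + 1), i.1 < a → j.1 < a → z i = z j → i = j) ∧
    ∀ i j : Fin (a + 1), 1 ≤ i.1 → 1 ≤ j.1 → z i = z j → i = j := by
  rw [Sq, Finset.mem_filter]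
  exact ⟨fun h => h.2, fun h => ⟨Finset.mem_univ _, h⟩⟩

theorem hd_mem {r b : ℕ} {x y u : V} {z : Fin (r + b + 1) → V} (hz : z ∈ Sq V (r + b) x y)
    (hu : z ⟨r, by omega⟩ = u) : hd r b z ∈ Sq V r x u := by
  obtain ⟨h0, h1, h2, h3⟩ := mem_Sq.1 hz
  refine mem_Sq.2 ⟨h0, hu, ?_, ?_⟩
  · intro i j hi hj h
    have h4 := h2 ⟨i.1, by omega⟩ ⟨j.1, by omega⟩ (by show i.1 < r + b; omega)
      (by show j.1 < r + b; omega) h
    exact Fin.ext (Fin.mk.inj_iff.1 h4)
  · intro i j hi hj h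
    have h4 := h3 ⟨i.1, by omega⟩ ⟨j.1, by omega⟩ hi hj h
    exact Fin.ext (Fin.mk.inj_iff.1 h4)

theorem tl_mem {r b : ℕ} {x y u : V} {z : Fin (r + b + 1) → V} (hz : z ∈ Sq V (r + b) x y)
    (hu : z ⟨r, by omega⟩ = u) : tl r b z ∈ Sq V b u y := by
  obtain ⟨h0, h1, h2, h3⟩ := mem_Sq.1 hz
  refine mem_Sq.2 ⟨hu, h1, ?_, ?_⟩
  · intro i j hi hj h
    have h4 := h2 ⟨r + i.1, by omega⟩ ⟨r + j.1, by omega⟩ (by show r + i.1 < r + b; omega)
      (by show r + j.1 < r + b; omega) h
    have h5 := Fin.mk.inj_iff.1 h4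
    exact Fin.ext (by omega)
  · intro i j hi hj h
    have h4 := h3 ⟨r + i.1, by omega⟩ ⟨r + j.1, by omega⟩ (by show 1 ≤ r + i.1; omega)
      (by show 1 ≤ r + j.1; omega) h
    have h5 := Fin.mk.inj_iff.1 h4
    exact Fin.ext (by omega)

theorem hd_tl_inj {r b : ℕ} {z z' : Fin (r + b + 1) → V} (h1 : hd r b z = hd r b z')
    (h2 : tl r b z = tl r b z') : z = z' := by
  funext i
  by_cases hi : i.1 ≤ r
  · have := congrFun h1 ⟨i.1, by omega⟩
    exact this
  · have := congrFun h2 ⟨i.1 - r, by omega⟩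
    have e : (⟨r + (i.1 - r), by omega⟩ : Fin (r + b + 1)) = i := Fin.ext (by
      show r + (i.1 - r) = i.1
      omega)
    change z ⟨r + (i.1 - r), _⟩ = z' ⟨r + (i.1 - r), _⟩ at this
    rwa [e] at this

/-- weights with the weight `1` inside `S` -/
def ws (S : Finset V) (w : V → V → ℝ) (u v : V) : ℝ := if u ∈ S ∧ v ∈ S then 1 else w u v

theorem ws_nonneg {w : V → V → ℝ} (hw : ∀ x y, 0 ≤ w x y) (S : Finset V) (x y : V) :
    0 ≤ ws S w x y := by
  rw [ws]
  split_ifs
  · exact zero_le_one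
  · exact hw x y

/-- the sequences which are outside `S` between the ends -/
def Fq (S : Finset V) (r : ℕ) (x u : V) : Finset (Fin (r + 1) → V) :=
  (Sq V r x u).filter fun z => ∀ i : Fin (r + 1), 1 ≤ i.1 → i.1 < r → z i ∉ S

theorem first {w : V → V → ℝ} (hw : ∀ x y, 0 ≤ w x y) {L : ℕ} {A κ Q : ℝ} (hA : 1 ≤ A)
    (hC : Cnt w L A κ Q) (S : Finset V) {r : ℕ} (hr : 1 ≤ r) (hrL : r ≤ L) {x u : V}
    (hx : x ∈ S) (hu : u ∈ S) (hxu : x ≠ u ∨ 3 ≤ r) :
    ∑ z ∈ Fq S r x u, pr (ws S w) r z ≤ A * max 1 (κ ^ r / Q) := by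
  have hm : 1 ≤ max 1 (κ ^ r / Q) := le_max_left _ _
  rcases Nat.lt_or_ge r 2 with h2 | h2
  · have hr1 : r = 1 := by omega
    subst hr1
    have h3 : ∀ z ∈ Fq S 1 x u, pr (ws S w) 1 z = 1 := by
      intro z hz
      obtain ⟨h0, h1, -, -⟩ := mem_Sq.1 (Finset.mem_filter.1 hz).1
      rw [pr, Fin.prod_univ_one, ws, if_pos]
      exact ⟨by rw [show (Fin.castSucc (0 : Fin 1)) = 0 from rfl, h0]; exact hx,
        by rw [show (Fin.succ (0 : Fin 1)) = Fin.last 1 from rfl, h1]; exact hu⟩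
    rw [Finset.sum_congr rfl h3, Finset.sum_const, nsmul_eq_mul, mul_one]
    have h4 : (Fq S 1 x u).card ≤ 1 := by
      rw [Finset.card_le_one]
      intro z hz z' hz'
      obtain ⟨h0, h1, -, -⟩ := mem_Sq.1 (Finset.mem_filter.1 hz).1
      obtain ⟨h0', h1', -, -⟩ := mem_Sq.1 (Finset.mem_filter.1 hz').1
      funext i
      fin_cases i
      · show z 0 = z' 0
        rw [h0, h0']
      · show z (Fin.last 1) = z' (Fin.last 1)
        rw [h1, h1']
    have h5 : ((Fq S 1 x u).card : ℝ) ≤ 1 := by exact_mod_cast h4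
    nlinarith
  · have h3 : ∀ z ∈ Fq S r x u, pr (ws S w) r z = pr w r z := by
      intro z hz
      have hz2 := (Finset.mem_filter.1 hz).2
      refine Finset.prod_congr rfl fun i _ => ?_
      rw [ws, if_neg]
      rintro ⟨h4, h5⟩
      have hi := i.2
      by_cases h6 : i.1 = 0
      · refine hz2 i.succ ?_ ?_ h5
        · rw [Fin.val_succ]
          omega
        · rw [Fin.val_succ]
          omega
      · refine hz2 i.castSucc ?_ ?_ h4
        · rw [Fin.val_castSucc]
          omega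
        · rw [Fin.val_castSucc]
          omega
    rw [Finset.sum_congr rfl h3]
    refine le_trans ?_ (hC r x u hr hrL hxu)
    exact Finset.sum_le_sum_of_subset_of_nonneg (Finset.filter_subset _ _)
      fun z _ _ => pr_nonneg hw r z

/-- the first return to `S` is at time `r` -/
def Hit (S : Finset V) (a r : ℕ) (z : Fin (a + 1) → V) : Prop :=
  (∃ h : r < a + 1, z ⟨r, h⟩ ∈ S) ∧ ∀ i : Fin (a + 1), 1 ≤ i.1 → i.1 < r → z i ∉ S

theorem step {w : V → V → ℝ} (hw : ∀ x y, 0 ≤ w x y) (S : Finset V) {r b : ℕ} (hr : 1 ≤ r)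
    (hb : 1 ≤ b) (x y : V) :
    ∑ z ∈ (Sq V (r + b) x y).filter (Hit S (r + b) r), pr (ws S w) (r + b) z ≤
      ∑ u ∈ S.filter (fun u => u ≠ x ∧ u ≠ y),
        (∑ z ∈ Fq S r x u, pr (ws S w) r z) * npw (ws S w) b u y := by
  have hW := ws_nonneg hw S
  rw [← Finset.sum_fiberwise_of_maps_to (t := S.filter (fun u => u ≠ x ∧ u ≠ y))
    (g := fun z : Fin (r + b + 1) → V => z ⟨r, by omega⟩)]
  · refine Finset.sum_le_sum fun u hu => ?_
    rw [npw_eq, Finset.sum_mul_sum, ← Finset.sum_product']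
    have e1 : ∀ z ∈ ((Sq V (r + b) x y).filter (Hit S (r + b) r)).filter
        (fun z : Fin (r + b + 1) → V => z ⟨r, by omega⟩ = u), pr (ws S w) (r + b) z =
        (fun p : (Fin (r + 1) → V) × (Fin (b + 1) → V) =>
          pr (ws S w) r p.1 * pr (ws S w) b p.2) (hd r b z, tl r b z) :=
      fun z _ => pr_split _ r b z
    rw [Finset.sum_congr rfl e1]
    rw [← Finset.sum_image (f := fun p : (Fin (r + 1) → V) × (Fin (b + 1) → V) =>
          pr (ws S w) r p.1 * pr (ws S w) b p.2) (g := fun z => (hd r b z, tl r b z))]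
    · refine Finset.sum_le_sum_of_subset_of_nonneg ?_ fun p _ _ =>
        mul_nonneg (pr_nonneg hW r _) (pr_nonneg hW b _)
      intro p hp
      obtain ⟨z, hz, rfl⟩ := Finset.mem_image.1 hp
      obtain ⟨hz1, hz2⟩ := Finset.mem_filter.1 hz
      obtain ⟨hz3, hz4⟩ := Finset.mem_filter.1 hz1
      rw [Finset.mem_product]
      refine ⟨Finset.mem_filter.2 ⟨hd_mem hz3 hz2, ?_⟩, tl_mem hz3 hz2⟩
      intro i h1 h2
      exact hz4.2 ⟨i.1, by omega⟩ h1 h2
    · intro z _ z' _ h
      exact hd_tl_inj (congrArg Prod.fst h) (congrArg Prod.snd h)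
  · intro z hz
    obtain ⟨hz1, ⟨h, hz2⟩, hz3⟩ := Finset.mem_filter.1 hz
    obtain ⟨h0, h1, h2, h3⟩ := mem_Sq.1 hz1
    rw [Finset.mem_filter]
    refine ⟨hz2, ?_, ?_⟩
    · intro h4
      rw [← h0] at h4
      have h5 := h2 ⟨r, by omega⟩ 0 (by show r < r + b; omega) (by show 0 < r + b; omega) h4
      have h6 : r = 0 := congrArg Fin.val h5
      omega
    · intro h4
      rw [← h1] at h4
      have h5 := h3 ⟨r, by omega⟩ (Fin.last (r + b)) hr (by show 1 ≤ r + b; omega) h4
      have := Fin.mk.inj_iff.1 h5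
      omega

/-- geometric sum -/
theorem geo {B A : ℝ} (hA : 0 ≤ A) (hB : 2 ≤ B) (hAB : A ≤ B) : ∀ a : ℕ, 1 ≤ a →
    ∑ b ∈ range a, (if b = 0 then A else B / 2 * B ^ b) ≤ B ^ a := by
  intro a ha
  induction a, ha using Nat.le_induction with
  | base =>
    rw [Finset.sum_range_one, if_pos rfl, pow_one]
    exact hAB
  | succ a ha ih =>
    rw [Finset.sum_range_succ, if_neg (by omega)]
    have h1 : 0 < B ^ a := by positivity
    rw [pow_succ]
    nlinarith

theorem mx_mul {κ Q : ℝ} (hκ : 1 ≤ κ) (hQ : 1 ≤ Q) (r b : ℕ) :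
    max 1 (κ ^ r / Q) * max 1 (κ ^ b / Q) ≤ max 1 (κ ^ (r + b) / Q) := by
  have hQ0 : 0 < Q := by linarith
  have h1 : 1 ≤ κ ^ r := one_le_pow₀ hκ
  have h2 : 1 ≤ κ ^ b := one_le_pow₀ hκ
  have h3 : κ ^ r / Q ≤ κ ^ (r + b) / Q := by
    refine div_le_div_of_nonneg_right ?_ hQ0.le
    rw [pow_add]
    nlinarith
  have h4 : κ ^ b / Q ≤ κ ^ (r + b) / Q := by
    refine div_le_div_of_nonneg_right ?_ hQ0.le
    rw [pow_add]
    nlinarith
  have h5 : κ ^ r / Q * (κ ^ b / Q) ≤ κ ^ (r + b) / Q := by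
    rw [pow_add, div_mul_div_comm]
    rw [div_le_div_iff₀ (by positivity) hQ0]
    have : 0 ≤ κ ^ r * κ ^ b * Q := by positivity
    nlinarith
  rcases le_total 1 (κ ^ r / Q) with h6 | h6 <;> rcases le_total 1 (κ ^ b / Q) with h7 | h7
  · rw [max_eq_right h6, max_eq_right h7]
    exact h5.trans (le_max_right _ _)
  · rw [max_eq_right h6, max_eq_left h7, mul_one]
    exact h3.trans (le_max_right _ _)
  · rw [max_eq_left h6, max_eq_right h7, one_mul]
    exact h4.trans (le_max_right _ _)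
  · rw [max_eq_left h6, max_eq_left h7, mul_one]
    exact le_max_left _ _

/-- **the count of the paths with weight `1` inside `S`** -/
theorem cl {w : V → V → ℝ} (hw : ∀ x y, 0 ≤ w x y) {L : ℕ} {A κ Q : ℝ} (hA : 1 ≤ A)
    (hκ : 1 ≤ κ) (hQ : 1 ≤ Q) (hC : Cnt w L A κ Q) (S : Finset V) {q : ℕ} (hq : 2 ≤ q)
    (hS : S.card ≤ q) : ∀ a : ℕ, 1 ≤ a → a ≤ L → ∀ x ∈ S, ∀ y ∈ S, (x ≠ y ∨ 3 ≤ a) →
    npw (ws S w) a x y ≤ (2 * q * A) ^ a * max 1 (κ ^ a / Q) := by
  have hW := ws_nonneg hw S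
  have hq' : (2 : ℝ) ≤ q := by exact_mod_cast hq
  intro a
  induction a using Nat.strong_induction_on with
  | _ a ih =>
  intro ha haL x hx y hy hxy
  set B : ℝ := 2 * q * A with hB
  have hB4 : 4 ≤ B := by
    rw [hB]
    nlinarith
  have hAB : A ≤ B := by
    rw [hB]
    nlinarith
  have hma : 1 ≤ max 1 (κ ^ a / Q) := le_max_left _ _
  -- cover
  have h1 : npw (ws S w) a x y ≤ ∑ b ∈ range a,
      ∑ z ∈ (Sq V a x y).filter (Hit S a (a - b)), pr (ws S w) a z := by
    rw [npw_eq]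
    have e1 : ∀ b ∈ range a, ∑ z ∈ (Sq V a x y).filter (Hit S a (a - b)), pr (ws S w) a z =
        ∑ z ∈ Sq V a x y, if Hit S a (a - b) z then pr (ws S w) a z else 0 :=
      fun b _ => Finset.sum_filter _ _
    rw [Finset.sum_congr rfl e1, Finset.sum_comm]
    refine Finset.sum_le_sum fun z hz => ?_
    obtain ⟨h0, hl, -, -⟩ := mem_Sq.1 hz
    have hex : ∃ r : ℕ, 1 ≤ r ∧ ∃ h : r < a + 1, z ⟨r, h⟩ ∈ S := ⟨a, ha, Nat.lt_succ_self a, by
      have : (⟨a, Nat.lt_succ_self a⟩ : Fin (a + 1)) = Fin.last a := rfl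
      rw [this, hl]
      exact hy⟩
    have hr := Nat.find_spec hex
    have hmin : ∀ i, i < Nat.find hex → ¬ (1 ≤ i ∧ ∃ h : i < a + 1, z ⟨i, h⟩ ∈ S) :=
      fun i hi => Nat.find_min hex hi
    obtain ⟨hr1, hr2, hr3⟩ := hr
    set r := Nat.find hex with hrdef
    have hhit : Hit S a (a - (a - r)) z := by
      have e : a - (a - r) = r := by omega
      rw [e]
      refine ⟨⟨hr2, hr3⟩, fun i hi1 hi2 hi3 => hmin i.1 hi2 ⟨hi1, i.2, hi3⟩⟩
    have h2 := Finset.single_le_sum (f := fun b => if Hit S a (a - b) z then pr (ws S w) a z else 0)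
      (s := range a) (fun b _ => by
        show (0 : ℝ) ≤ if Hit S a (a - b) z then pr (ws S w) a z else 0
        split_ifs
        · exact pr_nonneg hW a z
        · exact le_rfl) (Finset.mem_range.2 (show a - r < a by omega))
    simp only [if_pos hhit] at h2
    exact h2
  refine h1.trans ?_
  have h2 : ∀ b ∈ range a, ∑ z ∈ (Sq V a x y).filter (Hit S a (a - b)), pr (ws S w) a z ≤
      (if b = 0 then A else B / 2 * B ^ b) * max 1 (κ ^ a / Q) := by
    intro b hb
    rw [Finset.mem_range] at hb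
    by_cases hb0 : b = 0
    · rw [if_pos hb0, hb0, Nat.sub_zero]
      refine le_trans ?_ (first hw hA hC S ha haL hx hy hxy)
      refine Finset.sum_le_sum_of_subset_of_nonneg ?_ fun z _ _ => pr_nonneg hW a z
      intro z hz
      obtain ⟨hz1, hz2⟩ := Finset.mem_filter.1 hz
      exact Finset.mem_filter.2 ⟨hz1, hz2.2⟩
    · rw [if_neg hb0]
      obtain ⟨r, rfl⟩ : ∃ r, a = r + b := ⟨a - b, by omega⟩
      rw [Nat.add_sub_cancel]
      refine (step hw S (by omega) (by omega) x y).trans ?_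
      have h3 : ∀ u ∈ S.filter (fun u => u ≠ x ∧ u ≠ y),
          (∑ z ∈ Fq S r x u, pr (ws S w) r z) * npw (ws S w) b u y ≤
            A * B ^ b * max 1 (κ ^ (r + b) / Q) := by
        intro u hu
        obtain ⟨hu1, hu2, hu3⟩ := Finset.mem_filter.1 hu
        have h4 := first hw hA hC S (show 1 ≤ r by omega) (by omega) hx hu1 (Or.inl (Ne.symm hu2))
        have h5 := ih b (by omega) (by omega) (by omega) u hu1 y hy (Or.inl hu3)
        have h6 : 0 ≤ npw (ws S w) b u y := Finset.sum_nonneg fun z _ => pr_nonneg hW b z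
        have h7 : 0 ≤ max 1 (κ ^ r / Q) := zero_le_one.trans (le_max_left _ _)
        have h8 : 0 ≤ B ^ b := by positivity
        calc (∑ z ∈ Fq S r x u, pr (ws S w) r z) * npw (ws S w) b u y
            ≤ (A * max 1 (κ ^ r / Q)) * (B ^ b * max 1 (κ ^ b / Q)) :=
              mul_le_mul h4 h5 h6 (by positivity)
          _ = A * B ^ b * (max 1 (κ ^ r / Q) * max 1 (κ ^ b / Q)) := by ring
          _ ≤ A * B ^ b * max 1 (κ ^ (r + b) / Q) :=
              mul_le_mul_of_nonneg_left (mx_mul hκ hQ r b) (by positivity)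
      refine (Finset.sum_le_card_nsmul _ _ _ h3).trans ?_
      rw [nsmul_eq_mul]
      have h9 : ((S.filter (fun u => u ≠ x ∧ u ≠ y)).card : ℝ) ≤ q := by
        exact_mod_cast (Finset.card_le_card (Finset.filter_subset _ _)).trans hS
      have h10 : 0 ≤ A * B ^ b * max 1 (κ ^ (r + b) / Q) := by positivity
      refine (mul_le_mul_of_nonneg_right h9 h10).trans (le_of_eq ?_)
      rw [hB]
      ring
  refine (Finset.sum_le_sum h2).trans ?_
  rw [← Finset.sum_mul]
  exact mul_le_mul_of_nonneg_right (geo (by linarith) (by linarith) hAB a ha) (by linarith)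

/-! ### moments -/

/-- the edges inside `S` -/
def ES (S : Finset V) : Finset (Sym2 V) := univ.filter fun e => ∀ v ∈ e, v ∈ S

theorem ES_mono {S S' : Finset V} (h : S ⊆ S') : ES S ⊆ ES S' := by
  intro e he
  rw [ES, Finset.mem_filter] at he ⊢
  exact ⟨he.1, fun v hv => h (he.2 v hv)⟩

theorem mk_mem_ES {S : Finset V} {x y : V} : s(x, y) ∈ ES S ↔ x ∈ S ∧ y ∈ S := by
  rw [ES, Finset.mem_filter]
  constructor
  · intro h
    exact ⟨h.2 x (Sym2.mem_mk_left x y), h.2 y (Sym2.mem_mk_right x y)⟩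
  · rintro ⟨hx, hy⟩
    refine ⟨Finset.mem_univ _, fun v hv => ?_⟩
    rcases Sym2.mem_iff.1 hv with rfl | rfl
    · exact hx
    · exact hy

/-- the edges of a sequence are different -/
theorem edge_inj {a : ℕ} {x y : V} {z : Fin (a + 1) → V} (hz : z ∈ Sq V a x y)
    (hxy : x ≠ y ∨ 3 ≤ a) (i j : Fin a)
    (h : s(z i.castSucc, z i.succ) = s(z j.castSucc, z j.succ)) : i = j := by
  obtain ⟨h0, h1, h2, h3⟩ := mem_Sq.1 hz
  rcases Sym2.eq_iff.1 h with ⟨h4, -⟩ | ⟨h4, h5⟩
  · have := h2 i.castSucc j.castSucc i.2 j.2 h4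
    exact Fin.castSucc_injective _ this
  · exfalso
    -- z i = z (j + 1), z (i + 1) = z j
    have key : ∀ i j : Fin a, i.1 < j.1 → z i.castSucc = z j.succ → z i.succ = z j.castSucc →
        False := by
      intro i j hij h4 h5
      have hi := i.2
      have hj := j.2
      have h6 := h3 i.succ j.castSucc (by rw [Fin.val_succ]; omega)
        (by rw [Fin.val_castSucc]; omega) h5
      have h7 : i.1 + 1 = j.1 := by
        have := congrArg Fin.val h6
        rwa [Fin.val_succ, Fin.val_castSucc] at this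
      by_cases h8 : j.1 + 1 < a
      · have h9 := h2 i.castSucc j.succ i.2 (by rw [Fin.val_succ]; omega) h4
        have := congrArg Fin.val h9
        rw [Fin.val_succ, Fin.val_castSucc] at this
        omega
      · by_cases h9 : i.1 = 0
        · -- a = 2
          have ha : a = 2 := by omega
          rcases hxy with hxy | hxy
          · apply hxy
            have e1 : i.castSucc = 0 := Fin.ext (by rw [Fin.val_castSucc, h9]; rfl)
            have e2 : j.succ = Fin.last a := Fin.ext (by rw [Fin.val_succ, Fin.val_last]; omega)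
            rw [e1, e2, h0, h1] at h4
            exact h4
          · omega
        · have h10 := h3 i.castSucc j.succ (by rw [Fin.val_castSucc]; omega)
            (by rw [Fin.val_succ]; omega) h4
          have := congrArg Fin.val h10
          rw [Fin.val_succ, Fin.val_castSucc] at this
          omega
    rcases Nat.lt_trichotomy i.1 j.1 with hij | hij | hij
    · exact key i j hij h4 h5
    · have hij' : i = j := Fin.ext hij
      subst hij'
      have hi := i.2
      -- z i = z (i + 1)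
      by_cases h8 : i.1 = 0
      · by_cases h9 : i.1 + 1 < a
        · have h10 := h2 i.castSucc i.succ i.2 (by rw [Fin.val_succ]; omega) h4
          have := congrArg Fin.val h10
          rw [Fin.val_succ, Fin.val_castSucc] at this
          omega
        · rcases hxy with hxy | hxy
          · apply hxy
            have e1 : i.castSucc = 0 := Fin.ext (by rw [Fin.val_castSucc, h8]; rfl)
            have e2 : i.succ = Fin.last a := Fin.ext (by rw [Fin.val_succ, Fin.val_last]; omega)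
            rw [e1, e2, h0, h1] at h4
            exact h4
          · omega
      · have h10 := h3 i.castSucc i.succ (by rw [Fin.val_castSucc]; omega)
            (by rw [Fin.val_succ]; omega) h4
        have := congrArg Fin.val h10
        rw [Fin.val_succ, Fin.val_castSucc] at this
        omega
    · exact key j i hij h5.symm h4.symm

variable {α : Type} [Fintype α] [Nonempty α]

/-- the sampled weight -/
def X (φ : Sym2 V → α → ℝ) (ω : Sym2 V → α) (u v : V) : ℝ := φ s(u, v) (ω s(u, v))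

theorem one_path {φ : Sym2 V → α → ℝ} {w : V → V → ℝ} (hφ : ∀ e t, 0 ≤ φ e t ∧ φ e t ≤ 1)
    (hφw : ∀ x y, (∑ t, φ s(x, y) t) / Fintype.card α ≤ w x y) (S : Finset V)
    {P : (Sym2 V → α) → ℝ} (hP0 : ∀ ω, 0 ≤ P ω) (hP : Dep (ES S) P) {a : ℕ} {x y : V}
    {z : Fin (a + 1) → V} (hz : z ∈ Sq V a x y) (hxy : x ≠ y ∨ 3 ≤ a) :
    mean (fun ω => P ω * pr (X φ ω) a z) ≤ mean P * pr (ws S w) a z := by
  set I : Finset (Fin a) := univ.filter fun i => ¬ (z i.castSucc ∈ S ∧ z i.succ ∈ S) with hI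
  have hX0 : ∀ ω (i : Fin a), 0 ≤ X φ ω (z i.castSucc) (z i.succ) := fun ω i => (hφ _ _).1
  have hX1 : ∀ ω (i : Fin a), X φ ω (z i.castSucc) (z i.succ) ≤ 1 := fun ω i => (hφ _ _).2
  have h1 : ∀ ω, pr (X φ ω) a z ≤ ∏ i ∈ I, X φ ω (z i.castSucc) (z i.succ) := by
    intro ω
    rw [pr, ← Finset.prod_filter_mul_prod_filter_not univ
      (fun i : Fin a => ¬ (z i.castSucc ∈ S ∧ z i.succ ∈ S))]
    refine mul_le_of_le_one_right (Finset.prod_nonneg fun i _ => hX0 ω i) ?_
    exact Finset.prod_le_one (fun i _ => hX0 ω i) fun i _ => hX1 ω i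
  have h2 : mean (fun ω => P ω * pr (X φ ω) a z) ≤
      mean (fun ω => P ω * ∏ i ∈ I, X φ ω (z i.castSucc) (z i.succ)) :=
    mean_mono fun ω => mul_le_mul_of_nonneg_left (h1 ω) (hP0 ω)
  refine h2.trans ?_
  have hD : ∀ i ∈ I, Dep {s(z i.castSucc, z i.succ)}
      (fun ω : Sym2 V → α => X φ ω (z i.castSucc) (z i.succ)) := by
    intro i _ ω ω' h
    show φ _ (ω _) = φ _ (ω' _)
    rw [h _ (Finset.mem_singleton_self _)]
  have hdis : ∀ i ∈ I, ∀ j ∈ I, i ≠ j → Disjoint ({s(z i.castSucc, z i.succ)} : Finset (Sym2 V))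
      {s(z j.castSucc, z j.succ)} := by
    intro i _ j _ hij
    rw [Finset.disjoint_singleton]
    exact fun h => hij (edge_inj hz hxy i j h)
  rw [mean_mul_dep (W := ES S) (W' := I.biUnion fun i => {s(z i.castSucc, z i.succ)}) ?_ hP
    (Dep.prod I fun i hi => (hD i hi).mono
      (Finset.subset_biUnion_of_mem (fun i => {s(z i.castSucc, z i.succ)}) hi))]
  · refine mul_le_mul_of_nonneg_left ?_ (mean_nonneg hP0)
    rw [mean_prod_dep I (fun i => {s(z i.castSucc, z i.succ)}) hdis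
      (fun i ω => X φ ω (z i.castSucc) (z i.succ)) hD]
    have h3 : pr (ws S w) a z = ∏ i ∈ I, w (z i.castSucc) (z i.succ) := by
      rw [pr, hI, Finset.prod_filter]
      refine Finset.prod_congr rfl fun i _ => ?_
      rw [ws, ite_not]
    rw [h3]
    refine Finset.prod_le_prod (fun i _ => mean_nonneg fun ω => hX0 ω i) fun i _ => ?_
    refine le_trans (le_of_eq ?_) (hφw (z i.castSucc) (z i.succ))
    exact mean_coord (s(z i.castSucc, z i.succ)) (fun t => φ s(z i.castSucc, z i.succ) t)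
  · rw [Finset.disjoint_biUnion_right]
    intro i hi
    rw [Finset.disjoint_singleton_right, mk_mem_ES]
    exact (Finset.mem_filter.1 hi).2

theorem mom {L : ℕ} {φ : Sym2 V → α → ℝ} {w : V → V → ℝ} {A κ Q : ℝ} (hA : 1 ≤ A)
    (hκ : 1 ≤ κ) (hQ : 1 ≤ Q) (hφ : ∀ e t, 0 ≤ φ e t ∧ φ e t ≤ 1)
    (hφw : ∀ x y, (∑ t, φ s(x, y) t) / Fintype.card α ≤ w x y) (hC : Cnt w L A κ Q)
    {a : ℕ} (ha : 1 ≤ a) (haL : a ≤ L) {x y : V} (hxy : x ≠ y ∨ 3 ≤ a) {q : ℕ} (hq : 2 ≤ q) :
    ∀ (j : ℕ) (S : Finset V) (P : (Sym2 V → α) → ℝ), x ∈ S → y ∈ S → (∀ ω, 0 ≤ P ω) →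
      Dep (ES S) P → S.card + j * (L + 1) ≤ q →
      mean (fun ω => P ω * npw (X φ ω) a x y ^ j) ≤
        mean P * ((2 * q * A) ^ a * max 1 (κ ^ a / Q)) ^ j := by
  have hw : ∀ x y, 0 ≤ w x y := fun x y => le_trans
    (div_nonneg (Finset.sum_nonneg fun t _ => (hφ _ _).1) (Nat.cast_nonneg _)) (hφw x y)
  set M : ℝ := (2 * q * A) ^ a * max 1 (κ ^ a / Q) with hM
  have hM0 : 0 ≤ M := by
    have : 0 ≤ max 1 (κ ^ a / Q) := zero_le_one.trans (le_max_left _ _)
    positivity
  intro j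
  induction j with
  | zero =>
    intro S P _ _ _ _ _
    refine le_of_eq ?_
    rw [pow_zero, mul_one]
    congr 1
    funext ω
    rw [pow_zero, mul_one]
  | succ j ih =>
    intro S P hx hy hP0 hP hS
    have e1 : (fun ω => P ω * npw (X φ ω) a x y ^ (j + 1)) = fun ω =>
        ∑ z ∈ Sq V a x y, (P ω * pr (X φ ω) a z) * npw (X φ ω) a x y ^ j := by
      funext ω
      rw [← Finset.sum_mul, ← Finset.mul_sum, ← npw_eq, pow_succ]
      ring
    rw [e1, mean_sum]
    have h1 : ∀ z ∈ Sq V a x y,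
        mean (fun ω => (P ω * pr (X φ ω) a z) * npw (X φ ω) a x y ^ j) ≤
          mean P * pr (ws S w) a z * M ^ j := by
      intro z hz
      set S' : Finset V := S ∪ univ.image z with hS'
      have h2 : S'.card + j * (L + 1) ≤ q := by
        have h3 : S'.card ≤ S.card + (a + 1) := by
          refine (Finset.card_union_le _ _).trans (Nat.add_le_add_left ?_ _)
          refine Finset.card_image_le.trans ?_
          rw [Finset.card_univ, Fintype.card_fin]
        have : (j + 1) * (L + 1) = j * (L + 1) + (L + 1) := by ring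
        omega
      have h4 := ih S' (fun ω => P ω * pr (X φ ω) a z) (Finset.mem_union_left _ hx)
        (Finset.mem_union_left _ hy)
        (fun ω => mul_nonneg (hP0 ω) (pr_nonneg (fun u v => (hφ _ _).1) a z)) ?_ h2
      · refine h4.trans ?_
        exact mul_le_mul_of_nonneg_right (one_path hφ hφw S hP0 hP hz hxy) (pow_nonneg hM0 j)
      · intro ω ω' h
        have h5 : P ω = P ω' := hP ω ω' fun e he =>
          h e (ES_mono Finset.subset_union_left he)
        have h6 : pr (X φ ω) a z = pr (X φ ω') a z := by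
          refine Finset.prod_congr rfl fun i _ => ?_
          show φ _ (ω _) = φ _ (ω' _)
          rw [h]
          rw [mk_mem_ES]
          exact ⟨Finset.mem_union_right _ (Finset.mem_image_of_mem z (Finset.mem_univ _)),
            Finset.mem_union_right _ (Finset.mem_image_of_mem z (Finset.mem_univ _))⟩
        show P ω * _ = P ω' * _
        rw [h5, h6]
    refine (Finset.sum_le_sum h1).trans ?_
    rw [← Finset.sum_mul, ← Finset.mul_sum, ← npw_eq]
    have h7 := cl hw hA hκ hQ hC S hq (show S.card ≤ q by omega) a ha haL x hx y hy hxy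
    calc mean P * npw (ws S w) a x y * M ^ j ≤ mean P * M * M ^ j :=
          mul_le_mul_of_nonneg_right (mul_le_mul_of_nonneg_left h7 (mean_nonneg hP0))
            (pow_nonneg hM0 j)
      _ = mean P * M ^ (j + 1) := by rw [pow_succ]; ring

/-- TRK. -/
theorem trk : TRKStmt := by
  intro L m
  set q : ℕ := 2 + m * (L + 1) with hq
  have hq2 : (2 : ℝ) ≤ q := by
    rw [hq]
    push_cast
    have : (0 : ℝ) ≤ m * (L + 1) := by positivity
    linarith
  refine ⟨(2 * q) ^ L, one_le_pow₀ (by linarith), ?_⟩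
  intro V α _ _ _ φ w A κ Q hA hκ hQ hφ hφw hC a x y ha haL hxy
  have h1 := mom hA hκ hQ hφ hφw hC ha haL hxy (q := q) (by omega) m {x, y} (fun _ => 1)
    (Finset.mem_insert_self _ _) (Finset.mem_insert_of_mem (Finset.mem_singleton_self _))
    (fun _ => zero_le_one) (Dep.const _ _) (by
      have := Finset.card_le_two (a := x) (b := y)
      omega)
  rw [mean_const, one_mul] at h1
  have e1 : (fun ω : Sym2 V → α => npw (fun u v => φ s(u, v) (ω s(u, v))) a x y ^ m) =
      fun ω => 1 * npw (X φ ω) a x y ^ m := by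
    funext ω
    rw [one_mul]
    rfl
  rw [e1]
  refine h1.trans ?_
  have hm0 : 0 ≤ max 1 (κ ^ a / Q) := zero_le_one.trans (le_max_left _ _)
  refine pow_le_pow_left₀ (by positivity) ?_ m
  refine mul_le_mul_of_nonneg_right ?_ hm0
  rw [← mul_pow]
  exact pow_le_pow_right₀ (by nlinarith) haL

end Pool.Agent.C4N.H5
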